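import Pool.Agent.Helper95.PW.Stmts

/-!
# Row BIN
-/

set_option autoImplicit false

namespace Pool.Agent.Helper95.PW

open MeasureTheory Filter

theorem bin_nr (y : R3) : 0 ≤ nr y := Real.sqrt_nonneg _

theorem bin_sq {n : ℕ} (u : Wf n) : 0 ≤ sq u :=
  Finset.sum_nonneg fun s _ => integral_nonneg fun x => sq_nonneg _

theorem bin_kin {n : ℕ} (u : Wf n) : 0 ≤ kin u :=
  Finset.sum_nonneg fun k _ => Finset.sum_nonneg fun i _ => bin_sq _

theorem bin_rep {n : ℕ} (x : Cf n) : 0 ≤ rep x := by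
  unfold rep
  refine Finset.sum_nonneg fun k _ => Finset.sum_nonneg fun l _ => ?_
  split_ifs
  · exact div_nonneg zero_le_one (bin_nr _)
  · exact le_rfl

theorem bin_pair {n : ℕ} (u : Wf n) : 0 ≤ pair u :=
  Finset.sum_nonneg fun s _ => integral_nonneg fun x => mul_nonneg (bin_rep x) (sq_nonneg _)

theorem bin_one {n : ℕ} (w : R3 → ℝ) (hw : ∀ y, 0 ≤ w y) (u : Wf n) : 0 ≤ one w u :=
  Finset.sum_nonneg fun s _ => integral_nonneg fun x =>
    mul_nonneg (Finset.sum_nonneg fun k _ => hw _) (sq_nonneg _)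

theorem bin_ball (R : ℝ) (y : R3) : 0 ≤ Pool.Agent.Helper95.PW.ball R y := by
  unfold Pool.Agent.Helper95.PW.ball
  exact Set.indicator_nonneg (fun _ _ => zero_le_one) y

theorem bin_dv {n : ℕ} (k : Fin n) (i : Fin 3) {v : Cf n → ℝ} (hv : ContDiff ℝ (⊤ : ℕ∞) v) :
    ContDiff ℝ (⊤ : ℕ∞) (dv k i v) := by
  unfold dv
  exact (hv.fderiv_right (m := ((⊤ : ℕ∞) : WithTop ℕ∞)) (by simp)).clm_apply contDiff_const

theorem bin_id (hPAN : ST_PAN) (hSTB : ST_STB) (hINT : ST_INT) (n : ℕ) (Z E : ℝ) (g : R3 → ℝ)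
    (hg : ContDiff ℝ (⊤ : ℕ∞) g) (u : Wf n) (hu : Sm u) :
    Q Z (fun s => Pg g (u s)) - E * sq (fun s => Pg g (u s)) +
      (∑ s, ∫ x, Pg g (Pg g (u s)) x * (hm Z (u s) x - E * u s x)) =
    (kin (fun s => Pg g (u s)) -
      (∑ s, ∫ x, Pg g (Pg g (u s)) x * ∑ k, ∑ i, dv k i (dv k i (u s)) x)) +
    (pair (fun s => Pg g (u s)) + (∑ s, ∫ x, rep x * (Pg g (Pg g (u s)) x * u s x))) -
    Z * (one (fun y => 1 / nr y) (fun s => Pg g (u s)) +
      (∑ s, ∫ x, att x * (Pg g (Pg g (u s)) x * u s x))) := by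
  have h1 : Sm (fun s => Pg g (u s)) := (hSTB n g u hg hu).2.1
  have h2 : Sm (fun s => Pg g (Pg g (u s))) := (hSTB n g _ hg h1).2.1
  have key : ∀ s, ∫ x, Pg g (Pg g (u s)) x * (hm Z (u s) x - E * u s x) =
      -(∫ x, Pg g (Pg g (u s)) x * ∑ k, ∑ i, dv k i (dv k i (u s)) x) +
      (∫ x, rep x * (Pg g (Pg g (u s)) x * u s x)) -
      Z * (∫ x, att x * (Pg g (Pg g (u s)) x * u s x)) +
      E * ∫ x, Pg g (u s) x ^ 2 := by
    intro s
    obtain ⟨w1, w2⟩ := h2 s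
    obtain ⟨u1, u2⟩ := hu s
    obtain ⟨i1, i2, -, -⟩ := hINT n (Pg g (Pg g (u s))) (u s) w1 w2 u1 u2
    have cw : Continuous (Pg g (Pg g (u s))) := w1.continuous
    have cD : Continuous fun x : Cf n => ∑ k, ∑ i, dv k i (dv k i (u s)) x := by
      refine continuous_finsetSum _ fun k _ => continuous_finsetSum _ fun i _ => ?_
      exact (bin_dv k i (bin_dv k i u1)).continuous
    have iD : Integrable fun x : Cf n =>
        Pg g (Pg g (u s)) x * ∑ k, ∑ i, dv k i (dv k i (u s)) x :=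
      (cw.mul cD).integrable_of_hasCompactSupport (HasCompactSupport.mul_right w2)
    have iu : Integrable fun x : Cf n => Pg g (Pg g (u s)) x * u s x :=
      (cw.mul u1.continuous).integrable_of_hasCompactSupport (HasCompactSupport.mul_right w2)
    have e1 : (fun x : Cf n => Pg g (Pg g (u s)) x * (hm Z (u s) x - E * u s x)) =
        fun x => -(Pg g (Pg g (u s)) x * ∑ k, ∑ i, dv k i (dv k i (u s)) x) +
          rep x * (Pg g (Pg g (u s)) x * u s x) - Z * (att x * (Pg g (Pg g (u s)) x * u s x)) -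
          E * (Pg g (Pg g (u s)) x * u s x) := by
      funext x
      unfold hm
      ring
    have e2 : ∫ x, Pg g (Pg g (u s)) x * u s x = -∫ x, Pg g (u s) x ^ 2 := by
      rw [hPAN n g (Pg g (u s)) (u s) hg (h1 s).1 (h1 s).2 u1]
      congr 1
      refine integral_congr_ae (Eventually.of_forall fun x => ?_)
      simp only
      ring
    rw [e1, integral_sub, integral_sub, integral_add, integral_neg, integral_const_mul,
      integral_const_mul, e2]
    · ring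
    · exact iD.neg
    · exact i2
    · exact iD.neg.add i2
    · exact i1.const_mul Z
    · exact (iD.neg.add i2).sub (i1.const_mul Z)
    · exact iu.const_mul E
  rw [Finset.sum_congr rfl fun s _ => key s]
  simp only [Finset.sum_add_distrib, Finset.sum_sub_distrib, Finset.sum_neg_distrib,
    ← Finset.mul_sum]
  unfold Q
  have e3 : sq (fun s => Pg g (u s)) = ∑ s, ∫ x, Pg g (u s) x ^ 2 := rfl
  rw [e3]
  ring

theorem st_BIN (_ : ST_QH) (hPAN : ST_PAN) (hSTB : ST_STB) (hKIN : ST_KIN) (hPOE : ST_POE)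
    (hPIN : ST_PIN) (hINT : ST_INT) : ST_BIN := by
  obtain ⟨C1, hC1, H1⟩ := hKIN
  obtain ⟨C2, hC2, H2⟩ := hPOE
  obtain ⟨C3, hC3, H3⟩ := hPIN
  refine ⟨3 * C1 + 3 * C2 + C3, by positivity, ?_⟩
  intro n Z E g K R B u hZ hg hR g1 g2 hu hB
  have id : ∀ m, Q Z (fun s => Pg (g m) (u s)) - E * sq (fun s => Pg (g m) (u s)) =
      -(∑ s, ∫ x, Pg (g m) (Pg (g m) (u s)) x * (hm Z (u s) x - E * u s x)) +
      ((kin (fun s => Pg (g m) (u s)) -
        (∑ s, ∫ x, Pg (g m) (Pg (g m) (u s)) x * ∑ k, ∑ i, dv k i (dv k i (u s)) x)) +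
      (pair (fun s => Pg (g m) (u s)) +
        (∑ s, ∫ x, rep x * (Pg (g m) (Pg (g m) (u s)) x * u s x))) -
      Z * (one (fun y => 1 / nr y) (fun s => Pg (g m) (u s)) +
        (∑ s, ∫ x, att x * (Pg (g m) (Pg (g m) (u s)) x * u s x)))) := by
    intro m
    have := bin_id hPAN hSTB hINT n Z E (g m) (hg m).sm u hu
    linarith
  have a1 : ∀ m, kin (fun s => Pg (g m) (u s)) -
      (∑ s, ∫ x, Pg (g m) (Pg (g m) (u s)) x * ∑ k, ∑ i, dv k i (dv k i (u s)) x) ≤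
      C1 * K ^ 2 * (kin u / R ^ 2 + one (Pool.Agent.Helper95.PW.ball (2 * R)) u / R ^ 4) :=
    fun m => H1 n (g m) K R (2 * R) u (hg m) hR (g2 m) hu
  have a2 : ∀ m, pair (fun s => Pg (g m) (u s)) +
      (∑ s, ∫ x, rep x * (Pg (g m) (Pg (g m) (u s)) x * u s x)) ≤
      C2 * K ^ 2 / R ^ 2 * pair u := fun m => H2 n (g m) K R u (hg m) hR hu
  have a3 := H3 n g K R B u hg hR g1 hu hB
  have p1 := bin_kin u
  have p2 := bin_pair u
  have p3 : 0 ≤ one (fun y => 1 / nr y) u :=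
    bin_one _ (fun y => div_nonneg zero_le_one (bin_nr y)) u
  have p4 : 0 ≤ one (Pool.Agent.Helper95.PW.ball (2 * R)) u := bin_one _ (bin_ball _) u
  rw [Finset.sum_congr rfl fun m _ => id m, Finset.sum_add_distrib, Finset.sum_neg_distrib]
  have h4 : ∑ m : Fin 3, ((kin (fun s => Pg (g m) (u s)) -
        (∑ s, ∫ x, Pg (g m) (Pg (g m) (u s)) x * ∑ k, ∑ i, dv k i (dv k i (u s)) x)) +
      (pair (fun s => Pg (g m) (u s)) +
        (∑ s, ∫ x, rep x * (Pg (g m) (Pg (g m) (u s)) x * u s x))) -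
      Z * (one (fun y => 1 / nr y) (fun s => Pg (g m) (u s)) +
        (∑ s, ∫ x, att x * (Pg (g m) (Pg (g m) (u s)) x * u s x)))) ≤
      3 * (C1 * K ^ 2 * (kin u / R ^ 2 + one (Pool.Agent.Helper95.PW.ball (2 * R)) u / R ^ 4)) +
      3 * (C2 * K ^ 2 / R ^ 2 * pair u) +
      Z * (C3 * K ^ 2 / R ^ 2 * one (fun y => 1 / nr y) u + B / 2) := by
    rw [Finset.sum_sub_distrib, Finset.sum_add_distrib, ← Finset.mul_sum]
    have b1 : ∑ m : Fin 3, (kin (fun s => Pg (g m) (u s)) -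
        (∑ s, ∫ x, Pg (g m) (Pg (g m) (u s)) x * ∑ k, ∑ i, dv k i (dv k i (u s)) x)) ≤
        3 * (C1 * K ^ 2 *
          (kin u / R ^ 2 + one (Pool.Agent.Helper95.PW.ball (2 * R)) u / R ^ 4)) := by
      refine (Finset.sum_le_sum fun m _ => a1 m).trans ?_
      simp
    have b2 : ∑ m : Fin 3, (pair (fun s => Pg (g m) (u s)) +
        (∑ s, ∫ x, rep x * (Pg (g m) (Pg (g m) (u s)) x * u s x))) ≤
        3 * (C2 * K ^ 2 / R ^ 2 * pair u) := by
      refine (Finset.sum_le_sum fun m _ => a2 m).trans ?_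
      simp
    have b3 := mul_le_mul_of_nonneg_left a3 hZ
    rw [mul_neg] at b3
    linarith
  have h5 : 3 * (C1 * K ^ 2 *
        (kin u / R ^ 2 + one (Pool.Agent.Helper95.PW.ball (2 * R)) u / R ^ 4)) +
      3 * (C2 * K ^ 2 / R ^ 2 * pair u) +
      Z * (C3 * K ^ 2 / R ^ 2 * one (fun y => 1 / nr y) u + B / 2) ≤
      (3 * C1 + 3 * C2 + C3) * K ^ 2 *
        ((kin u + pair u + Z * one (fun y => 1 / nr y) u) / R ^ 2 +
          one (Pool.Agent.Helper95.PW.ball (2 * R)) u / R ^ 4) + Z * B / 2 := by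
    have q1 : 0 ≤ K ^ 2 * (kin u / R ^ 2) := by positivity
    have q2 : 0 ≤ K ^ 2 * (pair u / R ^ 2) := by positivity
    have q3 : 0 ≤ K ^ 2 * (Z * one (fun y => 1 / nr y) u / R ^ 2) := by positivity
    have q4 : 0 ≤ K ^ 2 * (one (Pool.Agent.Helper95.PW.ball (2 * R)) u / R ^ 4) := by positivity
    have e : (3 * C1 + 3 * C2 + C3) * K ^ 2 *
        ((kin u + pair u + Z * one (fun y => 1 / nr y) u) / R ^ 2 +
          one (Pool.Agent.Helper95.PW.ball (2 * R)) u / R ^ 4) + Z * B / 2 -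
        (3 * (C1 * K ^ 2 *
        (kin u / R ^ 2 + one (Pool.Agent.Helper95.PW.ball (2 * R)) u / R ^ 4)) +
      3 * (C2 * K ^ 2 / R ^ 2 * pair u) +
      Z * (C3 * K ^ 2 / R ^ 2 * one (fun y => 1 / nr y) u + B / 2)) =
        (3 * C2 + C3) * (K ^ 2 * (kin u / R ^ 2)) + (3 * C1 + C3) * (K ^ 2 * (pair u / R ^ 2)) +
        (3 * C1 + 3 * C2) * (K ^ 2 * (Z * one (fun y => 1 / nr y) u / R ^ 2)) +
        (3 * C2 + C3) * (K ^ 2 * (one (Pool.Agent.Helper95.PW.ball (2 * R)) u / R ^ 4)) := by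
      ring
    have : 0 ≤ (3 * C2 + C3) * (K ^ 2 * (kin u / R ^ 2)) +
        (3 * C1 + C3) * (K ^ 2 * (pair u / R ^ 2)) +
        (3 * C1 + 3 * C2) * (K ^ 2 * (Z * one (fun y => 1 / nr y) u / R ^ 2)) +
        (3 * C2 + C3) * (K ^ 2 * (one (Pool.Agent.Helper95.PW.ball (2 * R)) u / R ^ 4)) := by
      positivity
    linarith
  linarith

end Pool.Agent.Helper95.PW
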